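import Pool.Agent.helper4.EC.Spec

/-!
# Row W1 of MP_ee5996_co, project EC
-/

set_option autoImplicit false

namespace Pool.Agent.helper4.EC

open Finset

universe u

theorem W1_mod (N a b : ℕ) (ha : a < N) (hb : b < N) : (N - b + a) % N = if b ≤ a then a - b else N - b + a := by
  split_ifs with h
  · have e : N - b + a = (a - b) + N := by omega
    rw [e, Nat.add_mod_right, Nat.mod_eq_of_lt (by omega)]
  · exact Nat.mod_eq_of_lt (by omega)

theorem W1_cyc (n : ℕ) (hn : 3 ≤ n) (s t : Fin (n + 1)) (hst : s.val < t.val) :
    (SimpleGraph.cycleGraph (n + 1)).Adj s t ↔ t.val = s.val + 1 ∨ (s.val = 0 ∧ t.val = n) := by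
  have hs := s.isLt
  have ht := t.isLt
  rw [SimpleGraph.cycleGraph_adj', Fin.val_sub, Fin.val_sub, W1_mod _ _ _ hs ht, W1_mod _ _ _ ht hs]
  rw [if_neg (by omega), if_pos (by omega)]
  omega

theorem W1_ind {V : Type u} (G : SimpleGraph V) (hch : Chordal G) (k : ℕ) (w : ℕ → V) (hw : TW G k w) :
    ∀ n, 2 ≤ n → ∀ i, i + n ≤ k → w i ≠ w (i + n) ∧ ¬ G.Adj (w i) (w (i + n)) := by
  intro n
  induction n using Nat.strong_induction_on with
  | _ n ih =>
    intro hn i hi
    by_cases h2 : n = 2
    · subst h2
      exact hw.2 i hi
    have hn3 : 3 ≤ n := by omega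
    have hne : w i ≠ w (i + n) := by
      intro he
      have h1 := hw.1 (i + (n - 1)) (by omega)
      have e : i + (n - 1) + 1 = i + n := by omega
      rw [e, ← he] at h1
      exact (ih (n - 1) (by omega) (by omega) i (by omega)).2 h1.symm
    refine ⟨hne, ?_⟩
    intro hadj
    have hN : ∀ s t, s < t → t ≤ n → w (i + s) ≠ w (i + t) := by
      intro s t hst htn
      by_cases h3 : t = s + 1
      · subst h3
        have := hw.1 (i + s) (by omega)
        exact this.ne
      · by_cases h4 : t - s = n
        · have h5 : s = 0 := by omega
          have h6 : t = n := by omega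
          subst h5 h6
          exact hne
        · have := (ih (t - s) (by omega) (by omega) (i + s) (by omega)).1
          have e : i + s + (t - s) = i + t := by omega
          rw [e] at this
          exact this
    have hA : ∀ s t, s < t → t ≤ n → (G.Adj (w (i + s)) (w (i + t)) ↔ t = s + 1 ∨ (s = 0 ∧ t = n)) := by
      intro s t hst htn
      constructor
      · intro h
        by_contra hc
        have := (ih (t - s) (by omega) (by omega) (i + s) (by omega)).2
        have e : i + s + (t - s) = i + t := by omega
        rw [e] at this
        exact this h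
      · rintro (h | ⟨h, h'⟩)
        · subst h
          exact hw.1 (i + s) (by omega)
        · subst h h'
          exact hadj
    have hinj : Function.Injective (fun t : Fin (n + 1) => w (i + t.val)) := by
      intro s t hst
      rcases lt_trichotomy s.val t.val with h | h | h
      · exact absurd hst (hN _ _ h (by omega))
      · exact Fin.ext h
      · exact absurd hst.symm (hN _ _ h (by omega))
    refine (hch (n + 1) (by omega)).false ⟨⟨fun t => w (i + t.val), hinj⟩, ?_⟩
    intro s t
    change G.Adj (w (i + s.val)) (w (i + t.val)) ↔ _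
    rcases lt_trichotomy s.val t.val with h | h | h
    · rw [hA _ _ h (by omega), W1_cyc n hn3 s t h]
    · have e : s = t := Fin.ext h
      subst e
      simp
    · rw [SimpleGraph.adj_comm, hA _ _ h (by omega), SimpleGraph.adj_comm, W1_cyc n hn3 t s h]

theorem W1 : W1_stmt.{u} := by
  intro V G hch k w hw i j hij hj
  have := W1_ind G hch k w hw (j - i) (by omega) i (by omega)
  have e : i + (j - i) = j := by omega
  rw [e] at this
  exact this

end Pool.Agent.helper4.EC
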